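import Mathlib

/-!
# Complement symmetry of the weighted path sums in a rectangle (MP_5ac669_co)

The rotation of the rectangle by 180 degrees maps the paths to `lam` bijectively onto the paths to
the complement of `lam` and replaces the label `i` by `n - i`. Since the quadratic form
`∑ m_i (m_i - m_{i+1})` is symmetric under `i ↦ n - i`, the automorphism `α` maps the weights of the
rotated path to those of the original one, term by term.
-/

set_option autoImplicit false

open Finset

namespace Pool.Agent.Results.MP_5ac669_co.ComplementSymmetry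

/-- The boxes of the rectangle with `n - k` rows and `k` columns: `(r, c)` stands for the box in the
row `r + 1` and the column `c + 1`. -/
abbrev Box (n k : ℕ) : Type := Fin (n - k) × Fin k

/-- Young diagrams in the rectangle. -/
def IsDiagram {n k : ℕ} (S : Finset (Box n k)) : Prop :=
  ∀ b ∈ S, ∀ b' : Box n k, b'.1 ≤ b.1 → b'.2 ≤ b.2 → b' ∈ S

/-- The complement of a partition in the rectangle. -/
def complement {n k : ℕ} (lam : Finset (Box n k)) : Finset (Box n k) :=
  (univ \ lam).image fun b => (b.1.rev, b.2.rev)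

/-- The paths to `lam`: `e` lists every box exactly once (`e j` is the box number `j + 1`) and for
all `0 ≤ j ≤ N` the boxes of `lam` not among the first `j`, and `lam` together with the first `j`
boxes, form Young diagrams. -/
def IsPath {n k : ℕ} (lam : Finset (Box n k)) (e : Fin (k * (n - k)) ≃ Box n k) : Prop :=
  ∀ j : ℕ, j ≤ k * (n - k) →
    IsDiagram (lam.filter fun b => j ≤ (e.symm b : ℕ)) ∧
    IsDiagram (lam ∪ univ.filter fun b => (e.symm b : ℕ) < j)

/-- The label `r - c + k` of a box. -/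
def label {n k : ℕ} (b : Box n k) : ℕ := (b.1 : ℕ) + k - b.2

/-- `m_i^(j)`: the number of boxes with label `i` among the first `j` boxes (it is `0` for
`i = n`). -/
def cnt {n k : ℕ} (e : Fin (k * (n - k)) ≃ Box n k) (j i : ℕ) : ℕ :=
  (univ.filter fun t : Fin (k * (n - k)) => (t : ℕ) < j ∧ label (e t) = i).card

/-- The field `ℂ(ħ, a_1, ..., a_n)`. -/
abbrev K (n : ℕ) : Type := FractionRing (MvPolynomial (Fin (n + 1)) ℂ)

/-- The generators of the field: `var n 0` is `ħ` and `var n i` is `a_i` for `1 ≤ i ≤ n`. -/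
noncomputable def var (n i : ℕ) : K n :=
  if h : i < n + 1 then algebraMap (MvPolynomial (Fin (n + 1)) ℂ) (K n) (MvPolynomial.X ⟨i, h⟩)
  else 0

/-- The weight `w_j` of a path. -/
noncomputable def weight {n k : ℕ} (e : Fin (k * (n - k)) ≃ Box n k) (j : ℕ) : K n :=
  ∑ i ∈ Icc 1 (n - 1), (var n 0 * ((cnt e j i : K n) * ((cnt e j i : K n) - (cnt e j (i + 1) : K n)))
    + (cnt e j i : K n) * (var n (i + 1) - var n i))

open Classical in
/-- The weighted path sum `𝕍(lam)`. -/
noncomputable def V {n k : ℕ} (lam : Finset (Box n k)) : K n :=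
  ∑ e ∈ univ.filter (fun e : Fin (k * (n - k)) ≃ Box n k => IsPath lam e),
    ∏ j ∈ Icc 1 (k * (n - k)), 1 / weight e j

/-- `α(ħ) = ħ` and `α(a_i) = -a_{n+1-i}` for `1 ≤ i ≤ n`. -/
def IsAlpha {n : ℕ} (α : K n ≃ₐ[ℂ] K n) : Prop :=
  α (var n 0) = var n 0 ∧ ∀ i, 1 ≤ i → i ≤ n → α (var n i) = -var n (n + 1 - i)

section aux

variable {n k : ℕ}

/-- rotation of the rectangle -/
def rot (n k : ℕ) : Box n k ≃ Box n k := Equiv.prodCongr Fin.revPerm Fin.revPerm

lemma rot_apply (b : Box n k) : rot n k b = (b.1.rev, b.2.rev) := rfl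

lemma rot_rot (b : Box n k) : rot n k (rot n k b) = b := by
  simp [rot_apply]

lemma rot_symm (b : Box n k) : (rot n k).symm b = rot n k b := by
  rw [Equiv.symm_apply_eq, rot_rot]

lemma mem_complement (lam : Finset (Box n k)) (b : Box n k) :
    b ∈ complement lam ↔ rot n k b ∉ lam := by
  unfold complement
  constructor
  · intro h
    obtain ⟨c, hc, rfl⟩ := Finset.mem_image.1 h
    have h1 : rot n k (c.1.rev, c.2.rev) = c := by simp [rot_apply]
    rw [h1]
    exact (Finset.mem_sdiff.1 hc).2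
  · intro h
    exact Finset.mem_image.2 ⟨rot n k b, Finset.mem_sdiff.2 ⟨Finset.mem_univ _, h⟩, rot_rot b⟩

lemma complement_complement (lam : Finset (Box n k)) : complement (complement lam) = lam := by
  ext b
  rw [mem_complement, mem_complement, rot_rot, not_not]

lemma isDiagram_complement {lam : Finset (Box n k)} (h : IsDiagram lam) :
    IsDiagram (complement lam) := by
  intro b hb b' h1 h2
  rw [mem_complement] at hb ⊢
  intro h3
  exact hb (h _ h3 _ (Fin.rev_le_rev.2 h1) (Fin.rev_le_rev.2 h2))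

lemma isPath_rot {lam : Finset (Box n k)} {e : Fin (k * (n - k)) ≃ Box n k} (h : IsPath lam e) :
    IsPath (complement lam) (e.trans (rot n k)) := by
  intro j hj
  obtain ⟨h1, h2⟩ := h j hj
  constructor
  · intro b hb b' hb1 hb2
    rw [Finset.mem_filter, mem_complement] at hb ⊢
    have hs : ∀ c, ((e.trans (rot n k)).symm c) = e.symm (rot n k c) := by
      intro c
      rw [Equiv.symm_trans_apply, rot_symm]
    rw [hs] at hb ⊢
    by_contra hcon
    have h3 : rot n k b' ∈ lam ∪ univ.filter fun b => (e.symm b : ℕ) < j := by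
      rw [Finset.mem_union, Finset.mem_filter]
      by_cases h4 : rot n k b' ∈ lam
      · exact Or.inl h4
      · right
        refine ⟨Finset.mem_univ _, ?_⟩
        by_contra h5
        exact hcon ⟨h4, not_lt.1 h5⟩
    have h4 := h2 _ h3 (rot n k b) (Fin.rev_le_rev.2 hb1) (Fin.rev_le_rev.2 hb2)
    rw [Finset.mem_union, Finset.mem_filter] at h4
    rcases h4 with h4 | h4
    · exact hb.1 h4
    · exact absurd h4.2 (not_lt.2 hb.2)
  · intro b hb b' hb1 hb2
    rw [Finset.mem_union, Finset.mem_filter, mem_complement] at hb ⊢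
    have hs : ∀ c, ((e.trans (rot n k)).symm c) = e.symm (rot n k c) := by
      intro c
      rw [Equiv.symm_trans_apply, rot_symm]
    rw [hs] at hb ⊢
    by_contra hcon
    push Not at hcon
    have h3 : rot n k b' ∈ lam.filter fun b => j ≤ (e.symm b : ℕ) :=
      Finset.mem_filter.2 ⟨hcon.1, hcon.2 (Finset.mem_univ _)⟩
    have h4 := h1 _ h3 (rot n k b) (Fin.rev_le_rev.2 hb1) (Fin.rev_le_rev.2 hb2)
    rw [Finset.mem_filter] at h4
    rcases hb with hb | hb
    · exact hb h4.1
    · exact absurd hb.2 (not_lt.2 h4.2)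

lemma trans_rot_trans_rot (e : Fin (k * (n - k)) ≃ Box n k) :
    (e.trans (rot n k)).trans (rot n k) = e := by
  ext1 t
  simp only [Equiv.trans_apply, rot_rot]

lemma label_pos (b : Box n k) : 1 ≤ label b := by
  have := b.2.isLt
  unfold label
  omega

lemma label_lt (b : Box n k) : label b < n := by
  have := b.2.isLt
  have := b.1.isLt
  unfold label
  omega

lemma label_rot (b : Box n k) : label (rot n k b) = n - label b := by
  have h1 := b.2.isLt
  have h2 := b.1.isLt
  unfold label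
  rw [rot_apply]
  simp only [Fin.val_rev]
  omega

lemma cnt_rot (e : Fin (k * (n - k)) ≃ Box n k) (j i : ℕ) (hi : i ≤ n) :
    cnt (e.trans (rot n k)) j i = cnt e j (n - i) := by
  unfold cnt
  congr 1
  ext t
  simp only [Finset.mem_filter, Finset.mem_univ, true_and, Equiv.trans_apply, label_rot]
  have h1 := label_pos (e t)
  have h2 := label_lt (e t)
  constructor
  · rintro ⟨h3, h4⟩
    exact ⟨h3, by omega⟩
  · rintro ⟨h3, h4⟩
    exact ⟨h3, by omega⟩

lemma cnt_zero (e : Fin (k * (n - k)) ≃ Box n k) (j : ℕ) : cnt e j 0 = 0 := by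
  unfold cnt
  rw [Finset.card_eq_zero, Finset.filter_eq_empty_iff]
  rintro t - ⟨-, h⟩
  have := label_pos (e t)
  omega

lemma cnt_last (e : Fin (k * (n - k)) ≃ Box n k) (j : ℕ) : cnt e j n = 0 := by
  unfold cnt
  rw [Finset.card_eq_zero, Finset.filter_eq_empty_iff]
  rintro t - ⟨-, h⟩
  have := label_lt (e t)
  omega

lemma sum_cnt (e : Fin (k * (n - k)) ≃ Box n k) (j : ℕ) (hj : j ≤ k * (n - k)) :
    ∑ i ∈ Icc 1 (n - 1), cnt e j i = j := by
  unfold cnt
  have h := Finset.card_eq_sum_card_fiberwise (f := fun t => label (e t))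
    (s := univ.filter fun t : Fin (k * (n - k)) => (t : ℕ) < j) (t := Icc 1 (n - 1)) (by
      intro t _
      have h1 := label_pos (e t)
      have h2 := label_lt (e t)
      simp only [Finset.coe_Icc, Set.mem_Icc]
      omega)
  simp only [Finset.filter_filter] at h
  rw [← h]
  have h3 : (univ.filter fun t : Fin (k * (n - k)) => (t : ℕ) < j).card = j := by
    rw [Fin.card_filter_val_lt]
    omega
  exact h3

/-- weights as polynomials -/
noncomputable def wpoly (e : Fin (k * (n - k)) ≃ Box n k) (j : ℕ) :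
    MvPolynomial (Fin (n + 1)) ℂ :=
  ∑ i ∈ (Icc 1 (n - 1)).attach, (MvPolynomial.X ⟨0, by omega⟩ *
    ((cnt e j i : MvPolynomial (Fin (n + 1)) ℂ) *
      ((cnt e j i : MvPolynomial (Fin (n + 1)) ℂ) - (cnt e j (i + 1) : MvPolynomial (Fin (n + 1)) ℂ)))
    + (cnt e j i : MvPolynomial (Fin (n + 1)) ℂ) *
      (MvPolynomial.X ⟨(i : ℕ) + 1, by have := Finset.mem_Icc.1 i.2; omega⟩ -
        MvPolynomial.X ⟨(i : ℕ), by have := Finset.mem_Icc.1 i.2; omega⟩))

lemma weight_eq (e : Fin (k * (n - k)) ≃ Box n k) (j : ℕ) :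
    weight e j = algebraMap _ (K n) (wpoly e j) := by
  unfold weight wpoly
  rw [map_sum, ← Finset.sum_attach]
  refine Finset.sum_congr rfl fun i _ => ?_
  have hi := Finset.mem_Icc.1 i.2
  simp only [map_add, map_mul, map_sub, map_natCast]
  unfold var
  rw [dif_pos (by omega : 0 < n + 1), dif_pos (by omega : (i : ℕ) + 1 < n + 1),
    dif_pos (by omega : (i : ℕ) < n + 1)]

lemma wpoly_ne (e : Fin (k * (n - k)) ≃ Box n k) (j : ℕ) (h1 : 1 ≤ j) (hj : j ≤ k * (n - k)) :
    wpoly e j ≠ 0 := by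
  intro h
  have h2 : MvPolynomial.eval (fun i : Fin (n + 1) => ((i : ℕ) : ℂ)) (wpoly e j) = 0 := by
    rw [h, map_zero]
  unfold wpoly at h2
  rw [map_sum] at h2
  have h3 : ∀ i ∈ (Icc 1 (n - 1)).attach, MvPolynomial.eval (fun i : Fin (n + 1) => ((i : ℕ) : ℂ))
      (MvPolynomial.X ⟨0, by omega⟩ *
    ((cnt e j i : MvPolynomial (Fin (n + 1)) ℂ) *
      ((cnt e j i : MvPolynomial (Fin (n + 1)) ℂ) - (cnt e j (i + 1) : MvPolynomial (Fin (n + 1)) ℂ)))
    + (cnt e j i : MvPolynomial (Fin (n + 1)) ℂ) *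
      (MvPolynomial.X ⟨(i : ℕ) + 1, by have := Finset.mem_Icc.1 i.2; omega⟩ -
        MvPolynomial.X ⟨(i : ℕ), by have := Finset.mem_Icc.1 i.2; omega⟩)) =
      ((cnt e j i : ℕ) : ℂ) := by
    intro i _
    simp
  rw [Finset.sum_congr rfl h3, Finset.sum_attach (Icc 1 (n - 1)) (fun i => ((cnt e j i : ℕ) : ℂ)),
    ← Nat.cast_sum, sum_cnt e j hj] at h2
  have : j = 0 := by exact_mod_cast h2
  omega

lemma weight_ne (e : Fin (k * (n - k)) ≃ Box n k) (j : ℕ) (h1 : 1 ≤ j) (hj : j ≤ k * (n - k)) :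
    weight e j ≠ 0 := by
  rw [weight_eq]
  intro h
  exact wpoly_ne e j h1 hj ((IsFractionRing.injective (MvPolynomial (Fin (n + 1)) ℂ) (K n))
    (by rw [h, map_zero]))

lemma alpha_weight (hn : 2 ≤ n) {α : K n ≃ₐ[ℂ] K n} (hα : IsAlpha α)
    (e : Fin (k * (n - k)) ≃ Box n k) (j : ℕ) :
    α (weight (e.trans (rot n k)) j) = weight e j := by
  unfold weight
  rw [map_sum]
  have hc : ∀ x : ℕ, α (x : K n) = (x : K n) := fun x => map_natCast α x
  have h1 : ∀ i ∈ Icc 1 (n - 1), α (var n 0 * ((cnt (e.trans (rot n k)) j i : K n) *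
      ((cnt (e.trans (rot n k)) j i : K n) - (cnt (e.trans (rot n k)) j (i + 1) : K n))) +
      (cnt (e.trans (rot n k)) j i : K n) * (var n (i + 1) - var n i)) =
      var n 0 * ((cnt e j (n - i) : K n) * ((cnt e j (n - i) : K n) - (cnt e j (n - i - 1) : K n)))
      + (cnt e j (n - i) : K n) * (var n (n - i + 1) - var n (n - i)) := by
    intro i hi
    have hi' := Finset.mem_Icc.1 hi
    rw [cnt_rot e j i (by omega), cnt_rot e j (i + 1) (by omega)]
    simp only [map_add, map_mul, map_sub, hc]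
    rw [hα.1, hα.2 (i + 1) (by omega) (by omega), hα.2 i (by omega) (by omega)]
    have e1 : n + 1 - (i + 1) = n - i := by omega
    have e2 : n + 1 - i = n - i + 1 := by omega
    have e3 : n - (i + 1) = n - i - 1 := by omega
    rw [e1, e2, e3]
    ring
  rw [Finset.sum_congr rfl h1]
  have h2 : ∑ i ∈ Icc 1 (n - 1), (var n 0 * ((cnt e j (n - i) : K n) *
      ((cnt e j (n - i) : K n) - (cnt e j (n - i - 1) : K n)))
      + (cnt e j (n - i) : K n) * (var n (n - i + 1) - var n (n - i))) =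
      ∑ i ∈ Icc 1 (n - 1), (var n 0 * ((cnt e j i : K n) *
      ((cnt e j i : K n) - (cnt e j (i - 1) : K n)))
      + (cnt e j i : K n) * (var n (i + 1) - var n i)) := by
    refine Finset.sum_bij (fun i _ => n - i) ?_ ?_ ?_ ?_
    · intro i hi
      rw [Finset.mem_Icc] at hi ⊢
      omega
    · intro i hi i' hi' h
      rw [Finset.mem_Icc] at hi hi'
      have h' : n - i = n - i' := h
      omega
    · intro i hi
      rw [Finset.mem_Icc] at hi
      exact ⟨n - i, by rw [Finset.mem_Icc]; omega, by omega⟩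
    · intro i _
      rfl
  rw [h2]
  have h3 : ∑ i ∈ Icc 1 (n - 1), (cnt e j i : K n) * (cnt e j (i - 1) : K n) =
      ∑ i ∈ Icc 1 (n - 1), (cnt e j i : K n) * (cnt e j (i + 1) : K n) := by
    obtain ⟨p, rfl⟩ : ∃ p, n = p + 2 := ⟨n - 2, by omega⟩
    have e0 : p + 2 - 1 = p + 1 := by omega
    rw [e0]
    have h4 : ∀ f : ℕ → K (p + 2), ∑ i ∈ Icc 1 (p + 1), f i = ∑ i ∈ range (p + 1), f (i + 1) := by
      intro f
      rw [← Finset.sum_image (f := f) (s := range (p + 1)) (g := fun i => i + 1)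
        (fun a _ b _ h => Nat.succ_injective h)]
      congr 1
      ext i
      simp only [Finset.mem_Icc, Finset.mem_image, Finset.mem_range]
      constructor
      · intro hi
        exact ⟨i - 1, by omega, by omega⟩
      · rintro ⟨a, ha, rfl⟩
        omega
    rw [h4, h4, Finset.sum_range_succ', Finset.sum_range_succ]
    have e1 : cnt e j (p + 1 + 1) = 0 := cnt_last e j
    have e2 : cnt e j (0 + 1 - 1) = 0 := cnt_zero e j
    rw [e1, e2]
    simp only [Nat.cast_zero, mul_zero, add_zero]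
    refine Finset.sum_congr rfl fun i _ => ?_
    have e3 : i + 1 + 1 - 1 = i + 1 := by omega
    rw [e3]
    ring
  simp only [Finset.sum_add_distrib, ← Finset.mul_sum, mul_sub, Finset.sum_sub_distrib]
  rw [h3]

lemma V_eq (hn : 2 ≤ n) {α : K n ≃ₐ[ℂ] K n} (hα : IsAlpha α) (lam : Finset (Box n k)) :
    V lam = α (V (complement lam)) := by
  classical
  unfold V
  rw [map_sum]
  refine Finset.sum_bij (fun e _ => e.trans (rot n k)) ?_ ?_ ?_ ?_
  · intro e he
    exact Finset.mem_filter.2 ⟨Finset.mem_univ _, isPath_rot (Finset.mem_filter.1 he).2⟩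
  · intro e _ e' _ h
    have h1 : (e.trans (rot n k)).trans (rot n k) = (e'.trans (rot n k)).trans (rot n k) :=
      congrArg (fun f => Equiv.trans f (rot n k)) h
    rwa [trans_rot_trans_rot, trans_rot_trans_rot] at h1
  · intro e he
    refine ⟨e.trans (rot n k), ?_, trans_rot_trans_rot e⟩
    have h1 := isPath_rot (Finset.mem_filter.1 he).2
    rw [complement_complement] at h1
    exact Finset.mem_filter.2 ⟨Finset.mem_univ _, h1⟩
  · intro e _
    rw [map_prod]
    refine Finset.prod_congr rfl fun j _ => ?_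
    rw [map_div₀, map_one, alpha_weight hn hα]

/-- the substitution on polynomials (`-i` is `n + 1 - i` for `i ≠ 0` in `Fin (n + 1)`) -/
noncomputable def sub (n : ℕ) : MvPolynomial (Fin (n + 1)) ℂ →ₐ[ℂ] MvPolynomial (Fin (n + 1)) ℂ :=
  MvPolynomial.aeval fun i => if i = 0 then MvPolynomial.X 0 else -MvPolynomial.X (-i)

lemma sub_sub (n : ℕ) : (sub n).comp (sub n) = AlgHom.id ℂ _ := by
  apply MvPolynomial.algHom_ext
  intro i
  by_cases hi : i = 0
  · subst hi
    simp [sub]
  · have : -i ≠ 0 := neg_ne_zero.2 hi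
    simp [sub, hi]

/-- the substitution as an automorphism -/
noncomputable def subE (n : ℕ) : MvPolynomial (Fin (n + 1)) ℂ ≃ₐ[ℂ] MvPolynomial (Fin (n + 1)) ℂ :=
  AlgEquiv.ofAlgHom (sub n) (sub n) (sub_sub n) (sub_sub n)

/-- the automorphism `α` -/
noncomputable def alpha (n : ℕ) : K n ≃ₐ[ℂ] K n :=
  AlgEquiv.ofRingEquiv (f := IsFractionRing.ringEquivOfRingEquiv (A := MvPolynomial (Fin (n + 1)) ℂ)
    (K := K n) (B := MvPolynomial (Fin (n + 1)) ℂ) (L := K n) (subE n).toRingEquiv) (by
    intro r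
    rw [IsScalarTower.algebraMap_apply ℂ (MvPolynomial (Fin (n + 1)) ℂ) (K n),
      IsFractionRing.ringEquivOfRingEquiv_algebraMap]
    congr 1
    exact (subE n).commutes r)

lemma alpha_algebraMap (n : ℕ) (p : MvPolynomial (Fin (n + 1)) ℂ) :
    alpha n (algebraMap _ (K n) p) = algebraMap _ (K n) (sub n p) := by
  unfold alpha
  rw [AlgEquiv.ofRingEquiv_apply, IsFractionRing.ringEquivOfRingEquiv_algebraMap]
  rfl

lemma var_eq (n i : ℕ) (h : i < n + 1) :
    var n i = algebraMap (MvPolynomial (Fin (n + 1)) ℂ) (K n) (MvPolynomial.X ⟨i, h⟩) := by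
  unfold var
  rw [dif_pos h]

lemma neg_val (n i : ℕ) (h1 : 1 ≤ i) (h2 : i ≤ n) :
    -(⟨i, by omega⟩ : Fin (n + 1)) = ⟨n + 1 - i, by omega⟩ := by
  apply Fin.ext
  rw [Fin.val_neg']
  simp only
  rw [Nat.mod_eq_of_lt (by omega)]

lemma isAlpha_alpha (n : ℕ) : IsAlpha (alpha n) := by
  constructor
  · rw [var_eq n 0 (by omega), alpha_algebraMap]
    simp [sub]
  · intro i h1 h2
    rw [var_eq n i (by omega), alpha_algebraMap, var_eq n (n + 1 - i) (by omega), ← map_neg]
    congr 1
    have h3 : (⟨i, by omega⟩ : Fin (n + 1)) ≠ 0 := by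
      intro h
      have := congrArg Fin.val h
      simp at this
      omega
    simp only [sub, MvPolynomial.aeval_X, if_neg h3]
    rw [neg_val n i h1 h2]

lemma alpha_unique (n : ℕ) (β : K n ≃ₐ[ℂ] K n) (hβ : IsAlpha β) : β = alpha n := by
  have h1 : (β.toAlgHom.comp (IsScalarTower.toAlgHom ℂ (MvPolynomial (Fin (n + 1)) ℂ) (K n))) =
      ((alpha n).toAlgHom.comp (IsScalarTower.toAlgHom ℂ (MvPolynomial (Fin (n + 1)) ℂ) (K n))) := by
    apply MvPolynomial.algHom_ext
    intro i
    have hi := i.isLt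
    have e : IsScalarTower.toAlgHom ℂ (MvPolynomial (Fin (n + 1)) ℂ) (K n) (MvPolynomial.X i) =
        var n i := by
      rw [var_eq n i hi]
      rfl
    simp only [AlgHom.comp_apply]
    rw [e]
    change β (var n i) = alpha n (var n i)
    rcases Nat.eq_zero_or_pos (i : ℕ) with h | h
    · rw [h, hβ.1, (isAlpha_alpha n).1]
    · rw [hβ.2 i h (by omega), (isAlpha_alpha n).2 i h (by omega)]
  have h2 : ∀ p : MvPolynomial (Fin (n + 1)) ℂ,
      β (algebraMap _ (K n) p) = alpha n (algebraMap _ (K n) p) := fun p => DFunLike.congr_fun h1 p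
  ext x
  obtain ⟨p, q, -, rfl⟩ := IsFractionRing.div_surjective (A := MvPolynomial (Fin (n + 1)) ℂ) x
  rw [map_div₀, map_div₀, h2, h2]

end aux

/-- **Q1 holds for all `n`, `k` and all partitions.** Let `n ≥ 2` and `1 ≤ k ≤ n - 1`. There is
exactly one automorphism `α` of the field `ℂ(ħ, a_1, ..., a_n)` over `ℂ` with `α(ħ) = ħ` and
`α(a_i) = -a_{n+1-i}`; all weights of paths are nonzero; and `𝕍(lam) = α(𝕍(lam^c))` for every
partition `lam` in the `(n - k) × k` rectangle (`lam^c` is again such a partition). -/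
theorem result (n k : ℕ) (hn : 2 ≤ n) (_hk : 1 ≤ k) (_hkn : k ≤ n - 1) :
    (∃! α : K n ≃ₐ[ℂ] K n, IsAlpha α) ∧
    (∀ (lam : Finset (Box n k)) (e : Fin (k * (n - k)) ≃ Box n k), IsDiagram lam → IsPath lam e →
      ∀ j, 1 ≤ j → j ≤ k * (n - k) → weight e j ≠ 0) ∧
    ∀ α : K n ≃ₐ[ℂ] K n, IsAlpha α → ∀ lam : Finset (Box n k), IsDiagram lam →
      IsDiagram (complement lam) ∧ V lam = α (V (complement lam)) :=
  ⟨⟨alpha n, isAlpha_alpha n, alpha_unique n⟩, fun _ e _ _ j h1 h2 => weight_ne e j h1 h2,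
    fun _ hα lam hlam => ⟨isDiagram_complement hlam, V_eq hn hα lam⟩⟩

end Pool.Agent.Results.MP_5ac669_co.ComplementSymmetry
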